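import Pool.Agent.UL4.Stmts
import Pool.Agent.Helper39_UL3.AVD

/-! Row STG of squad UL4: stacking. -/

set_option autoImplicit false

namespace Pool.Agent.UL4.H38

open MeasureTheory Set Pool.Agent.UL3 Pool.Agent.UL4

theorem up_zero (p : ℝ × ℝ) (t : ℝ) : up p t 0 = p.1 := rfl

theorem up_one (p : ℝ × ℝ) (t : ℝ) : up p t 1 = p.2 := rfl

theorem up_two (p : ℝ × ℝ) (t : ℝ) : up p t 2 = t := rfl

theorem ext3 {x y : E3} (h0 : x 0 = y 0) (h1 : x 1 = y 1) (h2 : x 2 = y 2) : x = y := by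
  ext i
  fin_cases i
  · exact h0
  · exact h1
  · exact h2

theorem up_add (p q : ℝ × ℝ) (s t : ℝ) : up p s + up q t = up (p + q) (s + t) :=
  ext3 rfl rfl rfl

theorem smul_up (c : ℝ) (p : ℝ × ℝ) (s : ℝ) : c • up p s = up (c • p) (c * s) :=
  ext3 rfl rfl rfl

theorem cont_up (t : ℝ) : Continuous fun p : ℝ × ℝ => up p t := by
  unfold up
  refine (PiLp.continuous_toLp 2 _).comp ?_
  refine continuous_pi fun i => ?_
  fin_cases i
  · exact continuous_fst
  · exact continuous_snd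
  · exact continuous_const

theorem interior_height {K : Set E3} {w : ℝ} (hw : Ht K w) {x : E3} (hx : x ∈ interior K) :
    0 < x 2 ∧ x 2 < w := by
  have hc : Continuous fun t : ℝ => x + t • up 0 1 := by fun_prop
  have h1 : ∀ᶠ t : ℝ in nhds 0, x + t • up 0 1 ∈ interior K := by
    refine hc.continuousAt.eventually_mem ?_
    rw [zero_smul, add_zero]
    exact isOpen_interior.mem_nhds hx
  obtain ⟨ε, hε, h2⟩ := Metric.eventually_nhds_iff.1 h1
  have h3 : ∀ t : ℝ, |t| < ε → 0 ≤ x 2 + t ∧ x 2 + t ≤ w := by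
    intro t ht
    have h4 := h2 (y := t) (by rw [Real.dist_eq, sub_zero]; exact ht)
    have h5 := hw.rng _ (interior_subset h4)
    have h6 : (x + t • up 0 1) 2 = x 2 + t := by
      change x 2 + t * 1 = x 2 + t
      rw [mul_one]
    rwa [h6] at h5
  have h7 := h3 (-(ε / 2)) (by rw [abs_neg, abs_of_pos (by linarith)]; linarith)
  have h8 := h3 (ε / 2) (by rw [abs_of_pos (by linarith)]; linarith)
  constructor
  · linarith [h7.1]
  · linarith [h8.2]

theorem sec_meas {K : Set E3} (hK : IsCompact K) (t : ℝ) : MeasurableSet (sec K t) :=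
  (hK.isClosed.preimage (cont_up t)).measurableSet

theorem sec_lt {K : Set E3} (hK : IsCompact K) {t c : ℝ} (h : al K t < c) :
    volume (sec K t) < ENNReal.ofReal c := by
  have hc : Continuous fun x : E3 => (x 0, x 1) := by fun_prop
  have h1 : sec K t ⊆ (fun x : E3 => (x 0, x 1)) '' K := by
    intro p hp
    exact ⟨up p t, hp, rfl⟩
  have h2 : volume (sec K t) < ⊤ :=
    lt_of_le_of_lt (measure_mono h1) (hK.image hc).measure_lt_top
  rw [ENNReal.lt_ofReal_iff_toReal_lt h2.ne]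
  exact h

theorem stg : StgStmt := by
  intro K w hK hw a b p s hab hdis hwp hs hsp h1 h2
  have hp : 0 < p := hs.trans hsp
  obtain ⟨x₁, hx₁⟩ := H39.avd a b (sec K s) hab (sec_meas hK.cpt s) (sec_lt hK.cpt h1)
  obtain ⟨x₂, hx₂⟩ := H39.avd a b (sec K (s + p)) hab (sec_meas hK.cpt _) (sec_lt hK.cpt h2)
  have hsum : ∀ n : Fin 3 → ℤ, ∑ i, (n i : ℝ) • (![up a 0, up b 0, up (x₂ - x₁) p] : Fin 3 → E3) i
      = up ((n 0 : ℝ) • a + (n 1 : ℝ) • b + (n 2 : ℝ) • (x₂ - x₁)) (n 2 * p) := by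
    intro n
    rw [Fin.sum_univ_three]
    change (n 0 : ℝ) • up a 0 + (n 1 : ℝ) • up b 0 + (n 2 : ℝ) • up (x₂ - x₁) p = _
    rw [smul_up, smul_up, smul_up, up_add, up_add, mul_zero, mul_zero, add_zero, zero_add]
  have hdt : dt (![up a 0, up b 0, up (x₂ - x₁) p] : Fin 3 → E3) = cr a b * p := by
    have h3 : (Matrix.of fun i j => (![up a 0, up b 0, up (x₂ - x₁) p] : Fin 3 → E3) i j).det
        = cr a b * p := by
      rw [Matrix.det_fin_three]
      change a.1 * b.2 * p - a.1 * 0 * (x₂ - x₁).2 - a.2 * b.1 * p + a.2 * 0 * (x₂ - x₁).1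
        + 0 * b.1 * (x₂ - x₁).2 - 0 * b.2 * (x₂ - x₁).1 = cr a b * p
      unfold cr
      ring
    unfold dt
    rw [h3, abs_of_pos (mul_pos hab hp)]
  refine ⟨![up a 0, up b 0, up (x₂ - x₁) p], up x₁ s, ?_, ?_, ?_, hdt⟩
  · rw [hdt]
    exact mul_pos hab hp
  · intro n hn
    rw [hsum n]
    by_cases h3 : n 2 = 0
    · have h4 : n 0 ≠ 0 ∨ n 1 ≠ 0 := by
        by_contra hcon
        push Not at hcon
        apply hn
        funext i
        fin_cases i
        · exact hcon.1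
        · exact hcon.2
        · exact h3
      have h5 := hdis (n 0) (n 1) h4
      rw [h3]
      have h6 : (2 : ℝ) • up ((n 0 : ℝ) • a + (n 1 : ℝ) • b + ((0 : ℤ) : ℝ) • (x₂ - x₁))
          (((0 : ℤ) : ℝ) * p) = up ((2 : ℝ) • ((n 0 : ℝ) • a + (n 1 : ℝ) • b)) 0 := by
        rw [smul_up, Int.cast_zero, zero_smul, add_zero, zero_mul, mul_zero]
      rw [h6]
      exact h5
    · rw [Set.disjoint_left]
      rintro y hy ⟨x, hx, hxy⟩
      have h4 := interior_height hw hy
      have h5 := interior_height hw hx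
      have h6 : y 2 = x 2 + 2 * (n 2 * p) := by
        rw [← hxy]
        rfl
      rcases lt_or_gt_of_ne h3 with h7 | h7
      · have h8 : (n 2 : ℝ) ≤ -1 := by exact_mod_cast (show n 2 ≤ -1 by omega)
        have h9 : (n 2 : ℝ) * p ≤ -1 * p := mul_le_mul_of_nonneg_right h8 hp.le
        linarith [h4.1, h5.2]
      · have h8 : (1 : ℝ) ≤ n 2 := by exact_mod_cast (show 1 ≤ n 2 by omega)
        have h9 : 1 * p ≤ (n 2 : ℝ) * p := mul_le_mul_of_nonneg_right h8 hp.le
        linarith [h4.2, h5.1]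
  · intro n hcon
    have hK' := interior_subset hcon
    rw [hsum n, up_add] at hK'
    have hr := hw.rng _ hK'
    rw [up_two] at hr
    rcases lt_trichotomy (n 2) 0 with h3 | h3 | h3
    · have h8 : (n 2 : ℝ) ≤ -1 := by exact_mod_cast (show n 2 ≤ -1 by omega)
      have h9 : (n 2 : ℝ) * p ≤ -1 * p := mul_le_mul_of_nonneg_right h8 hp.le
      linarith [hr.1]
    · apply hx₁ (n 0) (n 1)
      rw [h3] at hK'
      have h4 : up (x₁ + ((n 0 : ℝ) • a + (n 1 : ℝ) • b + ((0 : ℤ) : ℝ) • (x₂ - x₁)))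
          (s + ((0 : ℤ) : ℝ) * p) = up (x₁ + (n 0 : ℝ) • a + (n 1 : ℝ) • b) s := by
        rw [Int.cast_zero, zero_smul, add_zero, zero_mul, add_zero, add_assoc]
      rw [h4] at hK'
      exact hK'
    · by_cases h5 : n 2 = 1
      · apply hx₂ (n 0) (n 1)
        rw [h5] at hK'
        have h4 : up (x₁ + ((n 0 : ℝ) • a + (n 1 : ℝ) • b + ((1 : ℤ) : ℝ) • (x₂ - x₁)))
            (s + ((1 : ℤ) : ℝ) * p) = up (x₂ + (n 0 : ℝ) • a + (n 1 : ℝ) • b) (s + p) := by
          rw [Int.cast_one, one_smul, one_mul]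
          congr 1
          abel
        rw [h4] at hK'
        exact hK'
      · have h8 : (2 : ℝ) ≤ n 2 := by exact_mod_cast (show 2 ≤ n 2 by omega)
        have h9 : 2 * p ≤ (n 2 : ℝ) * p := mul_le_mul_of_nonneg_right h8 hp.le
        linarith [hr.2]

end Pool.Agent.UL4.H38
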